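import Pool.Agent.R110.MT.Sym
import Pool.Agent.R110.MT.Tools

/-!
# Symmetry of the values of the monotone triangle polynomial at `(i, 2, ..., n + 1, 1, ..., n)`

There is exactly one polynomial `α (2 n + 1; ·)` counting the monotone triangles with `2 n + 1` rows,
and its values `W n i` at the rows `(i, 2, ..., n + 1, 1, ..., n)` satisfy
`W n i = W n (3 n + 3 - i)`, for every `n` and every integer `i`.

Proof: the cyclic shift `α (m; k₁, ..., k_m) = (-1) ^ (m - 1) α (m; k₂, ..., k_m, k₁ - m)`, followed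
by the reflection `k ↦ -k` with reversal of the row and by a translation.
-/

namespace Pool.Agent.Results.MP_16be1b_co.SymmetryW

open Pool.Agent.R110.MT (IsAlpha mtc)

/-- the row `(i, 2, 3, ..., n + 1, 1, 2, ..., n)` with `2 n + 1` entries -/
def row (n : ℕ) (i : ℤ) (j : Fin (2 * n + 1)) : ℤ :=
  if (j : ℕ) = 0 then i else if (j : ℕ) ≤ n then (j : ℤ) + 1 else (j : ℤ) - n

/-- `W n i` for a polynomial `P`: the value of `P` at the row `(i, 2, ..., n + 1, 1, ..., n)` -/
noncomputable def W (n : ℕ) (P : MvPolynomial (Fin (2 * n + 1)) ℚ) (i : ℤ) : ℚ :=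
  MvPolynomial.eval (fun j : Fin (2 * n + 1) => (row n i j : ℚ)) P

/-- For every `n` there is exactly one polynomial `P` counting the monotone triangles with
`2 n + 1` rows and given strictly increasing bottom row, and `W n P i = W n P (3 n + 3 - i)` for
every integer `i`. -/
theorem result (n : ℕ) :
    ∃ P : MvPolynomial (Fin (2 * n + 1)) ℚ, IsAlpha (2 * n + 1) P ∧
      (∀ P' : MvPolynomial (Fin (2 * n + 1)) ℚ, IsAlpha (2 * n + 1) P' → P' = P) ∧
      ∀ i : ℤ, W n P i = W n P (3 * n + 3 - i) := by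
  obtain ⟨P, hP, -⟩ := Pool.Agent.R110.MT.exists_alpha (2 * n + 1)
  refine ⟨P, hP, fun P' hP' => hP.unique hP', fun i => ?_⟩
  exact Pool.Agent.R110.MT.wrow_symm hP i

end Pool.Agent.Results.MP_16be1b_co.SymmetryW
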